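import Mathlib

namespace Pool.Agent.Results.MP_80b119_nt.Cex

theorem result : ¬ ∀ n : ℕ, Squarefree ((∏ k ∈ Finset.range n, Nat.nth Nat.Prime k) ^ 2 + 1) := by
  intro h
  have e : ∀ k p : ℕ, p.Prime → Nat.count Nat.Prime p = k → Nat.nth Nat.Prime k = p :=
    fun k p hp hc => hc ▸ Nat.nth_count hp
  have := h 9 29
  simp only [Finset.prod_range_succ, Finset.prod_range_zero, e 0 2 (by norm_num) (by decide),
    e 1 3 (by norm_num) (by decide), e 2 5 (by norm_num) (by decide),
    e 3 7 (by norm_num) (by decide), e 4 11 (by norm_num) (by decide),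
    e 5 13 (by norm_num) (by decide), e 6 17 (by norm_num) (by decide),
    e 7 19 (by norm_num) (by decide), e 8 23 (by norm_num) (by decide)] at this
  exact absurd (Nat.isUnit_iff.1 (this (by norm_num))) (by norm_num)

end Pool.Agent.Results.MP_80b119_nt.Cex
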